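import Pool.Agent.H.MP_7f5e5b_lc.B
import Pool.Agent.Lib.helper4.CXExpM
import Pool.Agent.Lib.lead.CXGraphRed

set_option autoImplicit false

namespace Pool.Agent.Results.MP_7f5e5b_lc.Full

open Pool.Agent.Lib.CX Pool.Agent.H.MP_7f5e5b_lc

/-- a bijection from `C` to `D` moves every guard inside its closed neighbourhood -/
def Trav {V : Type} (G : SimpleGraph V) (C D : Finset V) : Prop :=
  ∃ f : V → V, Set.BijOn f C D ∧ ∀ u ∈ C, f u = u ∨ G.Adj u (f u)

/-- there is an m-eternal dominating strategy of order `k` -/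
def Strat {V : Type} (G : SimpleGraph V) (k : ℕ) : Prop :=
  ∃ F : Set (Finset V), F.Nonempty ∧ (∀ C ∈ F, C.card = k) ∧
    ∀ C ∈ F, ∀ v, ∃ D ∈ F, v ∈ D ∧ (D = C ∨ Trav G C D)

/-- the m-eternal domination number -/
noncomputable def gam {V : Type} (G : SimpleGraph V) : ℕ := sInf {k | Strat G k}

lemma gam_le {V : Type} [Fintype V] (G : SimpleGraph V) (k : ℕ) : gam G ≤ k ↔ ∃ j ≤ k, Strat G j :=
  ⟨fun h => ⟨_, h, Nat.sInf_mem (s := {k | Strat G k}) ⟨_, {Finset.univ}, by simp, fun _ h => congrArg _ h,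
    by simp⟩⟩, fun ⟨_, h1, h2⟩ => (Nat.sInf_le h2).trans h1⟩

lemma strat_iff {V Y : Type} {G : SimpleGraph V} {vs : List Y} {r : Y → Y → Prop} (e : V → Y)
    (he : Function.Injective e) (h1 : ∀ y, y ∈ vs ↔ ∃ v, e v = y)
    (h2 : ∀ u v, v = u ∨ G.Adj u v ↔ nr r (e u) (e v)) (k : ℕ) : Strat G k ↔ LG vs r k := by
  classical
  constructor
  · rintro ⟨F, ⟨C, hC⟩, f1, f2⟩
    refine ⟨fun l => ∃ m : List V, m.Nodup ∧ m.toFinset ∈ F ∧ l = m.map e,
      ⟨_, C.toList, C.nodup_toList, by simpa, rfl⟩, ?_⟩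
    rintro _ ⟨m, m1, m2, rfl⟩
    refine ⟨by rw [List.length_map, ← List.toFinset_card_of_nodup m1, f1 _ m2], m1.map he,
      List.forall_mem_map.2 fun v _ => (h1 _).2 ⟨v, rfl⟩, fun y hy => ?_⟩
    obtain ⟨v, rfl⟩ := (h1 y).1 hy
    obtain ⟨D, d1, d2, d3⟩ := f2 _ m2 v
    obtain ⟨f, g1, g2⟩ : Trav G m.toFinset D := d3.elim (fun h => h ▸ ⟨id, Set.bijOn_id _, by simp⟩) id
    have : (m.map f).toFinset = D := Finset.coe_injective (by rw [← g1.image_eq]; ext; simp)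
    refine ⟨_, ⟨m.map f, m1.map_on fun x hx y hy => g1.injOn (by simpa) (by simpa), this ▸ d1, rfl⟩,
      List.mem_map_of_mem (List.mem_toFinset.1 (this ▸ d2)), ?_⟩
    simp only [List.forall₂_map_left_iff, List.forall₂_map_right_iff, List.forall₂_same]
    exact fun x hx => (h2 _ _).1 (g2 x (by simpa))
  · rintro ⟨W, ⟨l, hl⟩, h⟩
    have ex : ∀ l, W l → ∃ m : List V, m.Nodup ∧ l = m.map e := fun l hl => by
      obtain ⟨m, rfl⟩ : ∃ m : List V, m.map e = l :=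
        (Set.range_list_map e ▸ fun y hy => (h1 y).1 ((h l hl).2.2.1 y hy) : l ∈ Set.range (List.map e))
      exact ⟨m, (h _ hl).2.1.of_map _, rfl⟩
    have cd : ∀ m : List V, W (m.map e) → m.toFinset.card = k := fun m hm => by
      rw [List.toFinset_card_of_nodup ((h _ hm).2.1.of_map _), ← (h _ hm).1, List.length_map]
    obtain ⟨m, -, rfl⟩ := ex l hl
    refine ⟨{C | ∃ m : List V, W (m.map e) ∧ C = m.toFinset}, ⟨_, m, hl, rfl⟩, ?_, ?_⟩
    · rintro _ ⟨m, hm, rfl⟩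
      exact cd m hm
    rintro _ ⟨m, hm, rfl⟩ v
    obtain ⟨l', a1, a2, a3⟩ := (h _ hm).2.2.2 _ ((h1 _).2 ⟨v, rfl⟩)
    obtain ⟨m', b1, rfl⟩ := ex l' a1
    rw [List.forall₂_map_left_iff, List.forall₂_map_right_iff] at a3
    obtain ⟨f, f1, f2⟩ := fn_of a3 b1
    have c1 : Set.MapsTo f m.toFinset m'.toFinset := fun x hx => by simpa using (f1 x (by simpa using hx)).1
    have c2 : Set.InjOn f m.toFinset := fun x hx y hy => f2 x (by simpa using hx) y (by simpa using hy)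
    exact ⟨_, ⟨m', a1, rfl⟩, by simpa [he.eq_iff] using a2, .inr ⟨f, ⟨c1, c2,
      Finset.surjOn_of_injOn_of_card_le f c1 c2 (by rw [cd m hm, cd m' a1])⟩,
      fun u hu => (h2 _ _).2 (f1 u (by simpa using hu)).2⟩⟩

lemma mem : InEXP fun a : Gr × ℕ => gam a.1.G ≤ a.2 := by
  have e : ∀ (a : Gr) k, Strat a.G k ↔ LG (List.range a.n) (fun u v => (u, v) ∈ a.2) k := fun a =>
    strat_iff Fin.val Fin.val_injective (fun y => by simp [Fin.exists_iff]) fun u v => by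
      rw [Gr.adj_iff, nr, Fin.ext_iff]
      by_cases h : u.1 = v.1 <;> simp [h, eq_comm]
  refine InEXP.of_safe (σ := List ℕ) (fun a s => s.length ≤ a.2) (fun a => List.range a.1.n)
    (fun a s c t => s.Nodup ∧ (∀ x ∈ s, x < a.1.n) ∧ c ∈ t ∧ s.length = t.length ∧
      ∀ p ∈ s.zip t, p.1 = p.2 ∨ p ∈ a.1.2 ∨ (p.2, p.1) ∈ a.1.2)
    (fun a => a.1.n * (3 * a.1.n + 2 + 1) + 2) (by fun_prop) (by fun_prop) (by fun_prop) (by fun_prop)
    (fun a W ⟨s, h1, h2⟩ h => ?_) fun a h => ?_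
  · rcases Nat.eq_zero_or_pos a.1.n with h0 | h0
    · exact (gam_le _ _).2 ⟨0, by omega, (e _ _).2 ⟨(· = []), ⟨_, rfl⟩, by simp [h0]⟩⟩
    refine (gam_le _ _).2 ⟨_, h2, (e _ _).2 ⟨fun l => W l ∧ l.length = s.length, ⟨s, h1, rfl⟩, fun l hl => ?_⟩⟩
    obtain ⟨_, -, h3, h4, -⟩ := h l hl.1 0 (List.mem_range.2 h0)
    refine ⟨hl.2, h3, by simpa using h4, fun v hv => ?_⟩
    obtain ⟨t, h5, -, -, h6, h7, h8⟩ := h l hl.1 v hv
    exact ⟨t, ⟨h5, h7 ▸ hl.2⟩, h6, List.forall₂_iff_zip.2 ⟨h7, fun h => h8 _ h⟩⟩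
  · obtain ⟨j, h1, h2⟩ := (gam_le _ _).1 h
    obtain ⟨W, ⟨s, h3⟩, h4⟩ := (e _ _).1 h2
    refine ⟨W, ⟨s, h3, (h4 s h3).1 ▸ h1⟩, fun l hl => ?_⟩
    obtain ⟨-, b1, b2, b3⟩ := h4 l hl
    refine ⟨(size_list_le (B := 3 * a.1.n + 2) fun x hx => (size_nat_le x).trans (by
      have := List.mem_range.1 (b2 x hx); omega)).trans (Nat.add_le_add_right (Nat.mul_le_mul_right _
      (by simpa using (List.subperm_of_subset b1 b2).length_le)) _), fun c hc => ?_⟩
    obtain ⟨t, c1, c2, c3⟩ := b3 c hc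
    exact ⟨t, c1, b1, by simpa using b2, c2, c3.length_eq, fun p hp => (List.forall₂_iff_zip.1 c3).2 hp⟩

open Classical in
noncomputable def red (R : Fm (Option (ℕ × Cell))) : Gr × ℕ :=
  (mkGr (vs R) ((vs R ×ˢ vs R).filter fun e => ad e.1 e.2), (rs R).length)

set_option synthInstance.maxSize 4000 in
lemma red_pt : PT red := by
  classical
  have h1 : PT fun e : X (Option (ℕ × Cell)) × X (Option (ℕ × Cell)) => decide (ad e.1 e.2) := by
    unfold ad; fun_prop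
  have h2 : PT (xs (U := Option (ℕ × Cell))) := by unfold xs; fun_prop
  have h3 : PT (vs (U := Option (ℕ × Cell))) := by unfold vs cls gs; fun_prop
  unfold red rs gs
  fun_prop

theorem result : EXPComplete fun a : Gr × ℕ => gam a.1.G ≤ a.2 := by
  classical
  refine ⟨mem, fun A hA => (safe_hard A hA).trans ⟨fun R => red (wild R),
    red_pt.comp (by unfold wild; fun_prop), fun R => ?_⟩⟩
  refine (main R).trans (.trans ?_ (gam_le _ _).symm)
  refine exists_congr fun k => and_congr_right fun _ => (strat_iff (fun i => (mkGrIso _ _ i).1)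
    (Subtype.val_injective.comp (mkGrIso _ _).injective) (fun y => ⟨fun h => ⟨(mkGrIso _ _).symm ⟨y, h⟩, by simp⟩,
      fun ⟨i, h⟩ => h ▸ (mkGrIso _ _ i).2⟩) (fun u v => ?_) k).symm
  refine (or_congr (mkGrIso _ _).injective.eq_iff (mkGrIso _ _).map_rel_iff).symm.trans ?_
  generalize mkGrIso _ _ u = a, mkGrIso _ _ v = b
  obtain ⟨a, ha⟩ := a
  obtain ⟨b, hb⟩ := b
  by_cases h : a = b <;> simp [nr, eq_comm, h, show a ∈ vs _ from ha, show b ∈ vs _ from hb]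

end Pool.Agent.Results.MP_7f5e5b_lc.Full
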